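import Mathlib

/-!
# Topological systems, invariant measures, embeddings: definitions
-/

set_option autoImplicit false

open MeasureTheory

namespace Pool.Agent.helper27.AB

/-- A topological `ℤ^d` system: a compact metric space with an action of `ℤ^d` by
homeomorphisms. -/
structure TopSys (d : ℕ) where
  /-- the space -/
  X : Type
  /-- the metric -/
  met : MetricSpace X
  /-- compactness -/
  cpt : CompactSpace X
  /-- the action -/
  act : (Fin d → ℤ) → X → X
  act_zero : ∀ x, act 0 x = x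
  act_add : ∀ i j x, act (i + j) x = act i (act j x)
  continuous_act : ∀ i, Continuous (act i)

instance {d : ℕ} (Y : TopSys d) : MetricSpace Y.X := Y.met
instance {d : ℕ} (Y : TopSys d) : CompactSpace Y.X := Y.cpt

/-- the Borel σ-algebra -/
instance instMeasTopSys {d : ℕ} (Y : TopSys d) : MeasurableSpace Y.X := borel Y.X

/-- `μ ∈ Prob(Y, T)`: an invariant Borel probability measure. -/
def IsInvProb {d : ℕ} (Y : TopSys d) (μ : Measure Y.X) : Prop :=
  μ Set.univ = 1 ∧ ∀ i, μ.map (Y.act i) = μ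

/-- `Y₀` is an invariant Borel subset of `Y` and there is an injective morphism
`(Y₀, T) → (X, S)`. -/
def EmbedsOn {d : ℕ} (Y X : TopSys d) (Y₀ : Set Y.X) : Prop :=
  MeasurableSet Y₀ ∧ (∀ i y, Y.act i y ∈ Y₀ ↔ y ∈ Y₀) ∧
    ∃ ρ : Y₀ → X.X, Measurable ρ ∧ Function.Injective ρ ∧
      ∀ (i : Fin d → ℤ) (y : Y₀) (h : Y.act i y ∈ Y₀), ρ ⟨Y.act i y, h⟩ = X.act i (ρ y)

/-- `(Y, μ, T)` can be realized as an invariant measure on `(X, S)`. -/
def Realized {d : ℕ} (Y X : TopSys d) (μ : Measure Y.X) : Prop :=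
  ∃ Y₀ : Set Y.X, EmbedsOn Y X Y₀ ∧ μ Y₀ᶜ = 0

/-- There is an almost Borel embedding of `(Y, T)` into `(X, S)`. -/
def AlmostBorelEmbeds {d : ℕ} (Y X : TopSys d) : Prop :=
  ∃ Y₀ : Set Y.X, EmbedsOn Y X Y₀ ∧ ∀ μ : Measure Y.X, IsInvProb Y μ → μ Y₀ᶜ = 0

end Pool.Agent.helper27.AB
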