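import Pool.Agent.helper27.AB.Odo
import Pool.Agent.helper27.AB.Sys

/-!
# The two systems
-/

set_option autoImplicit false

open MeasureTheory Set Filter Topology

namespace Pool.Agent.helper27.AB

/-- data of a fibred rotation over `L` -/
structure Dat (L : Type) [TopologicalSpace L] where
  /-- the parameter -/
  p : L → P
  hp : Continuous p
  /-- the weights -/
  ψ : L → Nd → ℝ
  hψ : ∀ s, Continuous fun l => ψ l s

namespace Dat

variable {L : Type} [TopologicalSpace L] (D : Dat L)

/-- the parametrisation -/
noncomputable def F (z : L × Om) : L × (Nd → ℂ) :=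
  (z.1, fun s => (D.ψ z.1 s : ℂ) * cc s (D.p z.1 s) z.2)

lemma continuous_F : Continuous D.F := by
  refine continuous_fst.prodMk (continuous_pi fun s => ?_)
  have h1 : Continuous fun z : L × Om => (D.ψ z.1 s : ℂ) :=
    Complex.continuous_ofReal.comp ((D.hψ s).comp continuous_fst)
  have h0 : Continuous fun l : L => D.p l s := (continuous_apply s).comp D.hp
  have h3 : Continuous fun z : L × Om => ((D.p z.1 s, z.2) : Bool × Om) :=
    (h0.comp continuous_fst).prodMk continuous_snd
  have h2 : Continuous fun z : L × Om => cc s (D.p z.1 s) z.2 := (continuous_cc s).comp h3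
  exact h1.mul h2

/-- the space -/
def Sp : Type := Set.range D.F

instance : TopologicalSpace D.Sp := inferInstanceAs (TopologicalSpace (Set.range D.F))
instance [CompactSpace L] : CompactSpace D.Sp :=
  isCompact_iff_compactSpace.mp (isCompact_range D.continuous_F)
instance [TopologicalSpace.MetrizableSpace L] : TopologicalSpace.MetrizableSpace D.Sp :=
  inferInstanceAs (TopologicalSpace.MetrizableSpace (Set.range D.F))

noncomputable instance metSp [TopologicalSpace.MetrizableSpace L] : MetricSpace D.Sp := TopologicalSpace.metrizableSpaceMetric D.Sp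

/-- the point of the system with the given parameters -/
noncomputable def pt (l : L) (w : Om) : D.Sp := ⟨D.F (l, w), (l, w), rfl⟩

/-- base point -/
def base (x : D.Sp) : L := x.1.1

/-- coordinates -/
def co (x : D.Sp) (s : Nd) : ℂ := x.1.2 s

lemma base_pt (l : L) (w : Om) : D.base (D.pt l w) = l := rfl

lemma co_pt (l : L) (w : Om) (s : Nd) : D.co (D.pt l w) s = (D.ψ l s : ℂ) * cc s (D.p l s) w := rfl

lemma exists_pt (x : D.Sp) : ∃ w, x = D.pt (D.base x) w := by
  obtain ⟨x, ⟨l, w⟩, rfl⟩ := x
  exact ⟨w, rfl⟩

lemma ext' {x y : D.Sp} (h1 : D.base x = D.base y) (h2 : ∀ s, D.co x s = D.co y s) : x = y :=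
  Subtype.ext (Prod.ext h1 (funext h2))

lemma continuous_base : Continuous D.base := continuous_fst.comp continuous_subtype_val

lemma continuous_co (s : Nd) : Continuous fun x => D.co x s :=
  (continuous_apply s).comp (continuous_snd.comp continuous_subtype_val)

lemma continuous_pt : Continuous fun z : L × Om => D.pt z.1 z.2 :=
  D.continuous_F.subtype_mk _

/-- the action of `ℤ` on the ambient space -/
noncomputable def rot₀ (n : ℤ) (x : L × (Nd → ℂ)) : L × (Nd → ℂ) :=
  (x.1, fun s => ze s (D.p x.1 s) ^ n * x.2 s)

lemma rot₀_F (n : ℤ) (l : L) (w : Om) : D.rot₀ n (D.F (l, w)) = D.F (l, n • 1 + w) := by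
  refine Prod.ext rfl (funext fun s => ?_)
  change ze s (D.p l s) ^ n * ((D.ψ l s : ℂ) * cc s (D.p l s) w) =
    (D.ψ l s : ℂ) * cc s (D.p l s) (n • 1 + w)
  rw [cc_zsmul]
  ring

/-- the action of `ℤ` -/
noncomputable def rot (n : ℤ) (x : D.Sp) : D.Sp := ⟨D.rot₀ n x.1, by
  obtain ⟨x, ⟨l, w⟩, rfl⟩ := x
  exact ⟨(l, n • 1 + w), (D.rot₀_F n l w).symm⟩⟩

lemma rot_pt (n : ℤ) (l : L) (w : Om) : D.rot n (D.pt l w) = D.pt l (n • 1 + w) :=
  Subtype.ext (D.rot₀_F n l w)

lemma base_rot (n : ℤ) (x : D.Sp) : D.base (D.rot n x) = D.base x := rfl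

lemma co_rot (n : ℤ) (x : D.Sp) (s : Nd) :
    D.co (D.rot n x) s = ze s (D.p (D.base x) s) ^ n * D.co x s := rfl

lemma rot_zero (x : D.Sp) : D.rot 0 x = x := by
  refine D.ext' rfl fun s => ?_
  rw [co_rot, zpow_zero, one_mul]

lemma rot_add (m n : ℤ) (x : D.Sp) : D.rot (m + n) x = D.rot m (D.rot n x) := by
  refine D.ext' rfl fun s => ?_
  rw [co_rot, co_rot, co_rot, base_rot, zpow_add₀ (ze_ne_zero _ _), mul_assoc]

lemma continuous_rot (n : ℤ) : Continuous (D.rot n) := by
  have h : Continuous (D.rot₀ n) := by
    refine continuous_fst.prodMk (continuous_pi fun s => ?_)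
    have h1 : Continuous fun x : L × (Nd → ℂ) => ze s (D.p x.1 s) ^ n := by
      have h2 : Continuous fun b : Bool => ze s b ^ n := continuous_of_discreteTopology
      exact h2.comp (((continuous_apply s).comp D.hp).comp continuous_fst)
    exact h1.mul ((continuous_apply s).comp continuous_snd)
  exact (h.comp continuous_subtype_val).subtype_mk _

/-- the topological `ℤ^d` system, acting through the first coordinate -/
noncomputable def sys [CompactSpace L] [TopologicalSpace.MetrizableSpace L] (d : ℕ) (hd : 0 < d) : TopSys d where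
  X := D.Sp
  met := D.metSp
  cpt := inferInstance
  act := fun i x => D.rot (i ⟨0, hd⟩) x
  act_zero := fun x => D.rot_zero x
  act_add := fun _ _ x => D.rot_add _ _ x
  continuous_act := fun _ => D.continuous_rot _

end Dat

/-- the data of `Y` -/
noncomputable def DY : Dat P where
  p := id
  hp := continuous_id
  ψ := fun _ _ => 1
  hψ := fun _ => continuous_const

/-! ### the weights of `X` -/

/-- the weight -/
noncomputable def wt (k : K) (s : Nd) : ℝ := ∑' n : ℕ, if cnd k s n = true then (1 / 2 : ℝ) ^ n else 0

lemma continuous_and {L : Type} [TopologicalSpace L] {f g : L → Bool} (hf : Continuous f)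
    (hg : Continuous g) : Continuous fun x => f x && g x :=
  (continuous_of_discreteTopology (f := fun p : Bool × Bool => p.1 && p.2)).comp (hf.prodMk hg)

lemma continuous_or {L : Type} [TopologicalSpace L] {f g : L → Bool} (hf : Continuous f)
    (hg : Continuous g) : Continuous fun x => f x || g x :=
  (continuous_of_discreteTopology (f := fun p : Bool × Bool => p.1 || p.2)).comp (hf.prodMk hg)

lemma continuous_beq {L : Type} [TopologicalSpace L] {f g : L → Bool} (hf : Continuous f)
    (hg : Continuous g) : Continuous fun x => f x == g x :=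
  (continuous_of_discreteTopology (f := fun p : Bool × Bool => p.1 == p.2)).comp (hf.prodMk hg)

lemma continuous_bnot {L : Type} [TopologicalSpace L] {f : L → Bool} (hf : Continuous f) :
    Continuous fun x => !(f x) :=
  (continuous_of_discreteTopology (f := fun p : Bool => !p)).comp hf

lemma continuous_leafVal (s : Nd) : Continuous fun x : P => leafVal x s := by
  match s with
  | [] => exact continuous_const
  | 0 :: _ => exact continuous_const
  | (k + 1) :: _ => exact continuous_apply _

lemma continuous_ty (s : Nd) : Continuous fun k : K => ty k.2.1 s :=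
  (continuous_of_discreteTopology (f := fun i : Bool => ty i s)).comp (by fun_prop)

lemma continuous_par (s : Nd) : Continuous fun k : K => par k s := by
  cases s with
  | nil => 
    change Continuous fun k : K => k.2.2 []
    fun_prop
  | cons m s =>
    refine continuous_or (continuous_bnot (continuous_and (continuous_ty s)
      (continuous_and ?_ (continuous_bnot ?_)))) ?_
    all_goals fun_prop

lemma continuous_cnd (s : Nd) (n : ℕ) : Continuous fun k : K => cnd k s n := by
  unfold cnd
  have h1 : Continuous fun k : K => k.1 s := by fun_prop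
  have h2 : Continuous fun k : K => k.2.2 s := by fun_prop
  have h3 : Continuous fun k : K => k.2.2 (n :: s) := by fun_prop
  have h4 : Continuous fun k : K => leafVal k.1 s := (continuous_leafVal s).comp continuous_fst
  exact continuous_and (continuous_par s) (continuous_or (continuous_bnot h2)
    (continuous_or (continuous_and h1 (continuous_beq h4 (continuous_ty s)))
      (continuous_and (continuous_bnot h1) (continuous_or (continuous_ty s) h3))))

lemma wt_term_nonneg (k : K) (s : Nd) (n : ℕ) :
    0 ≤ (if cnd k s n = true then (1 / 2 : ℝ) ^ n else 0) := by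
  split_ifs <;> positivity

lemma wt_term_le (k : K) (s : Nd) (n : ℕ) :
    (if cnd k s n = true then (1 / 2 : ℝ) ^ n else 0) ≤ (1 / 2 : ℝ) ^ n := by
  split_ifs
  · exact le_rfl
  · positivity

lemma continuous_wt (s : Nd) : Continuous fun k : K => wt k s := by
  refine continuous_tsum (u := fun n => (1 / 2 : ℝ) ^ n) (fun n => ?_)
    summable_geometric_two (fun n k => ?_)
  · exact (continuous_of_discreteTopology
      (f := fun b : Bool => if b = true then (1 / 2 : ℝ) ^ n else 0)).comp (continuous_cnd s n)
  · rw [Real.norm_of_nonneg (wt_term_nonneg k s n)]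
    exact wt_term_le k s n

lemma summable_wt (k : K) (s : Nd) :
    Summable fun n : ℕ => if cnd k s n = true then (1 / 2 : ℝ) ^ n else 0 :=
  Summable.of_nonneg_of_le (wt_term_nonneg k s) (wt_term_le k s) summable_geometric_two

lemma wt_ne_zero_iff (k : K) (s : Nd) : wt k s ≠ 0 ↔ ∃ n, cnd k s n = true := by
  constructor
  · intro h
    by_contra hcon
    push Not at hcon
    apply h
    unfold wt
    have : ∀ n, (if cnd k s n = true then (1 / 2 : ℝ) ^ n else 0) = 0 := fun n => by
      rw [if_neg (hcon n)]
    simp only [this, tsum_zero]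
  · rintro ⟨n, hn⟩
    have h1 : (if cnd k s n = true then (1 / 2 : ℝ) ^ n else 0) ≤ wt k s :=
      (summable_wt k s).le_tsum n fun j _ => wt_term_nonneg k s j
    rw [if_pos hn] at h1
    have h2 : (0 : ℝ) < (1 / 2 : ℝ) ^ n := by positivity
    exact (h2.trans_le h1).ne'

lemma good_iff (k : K) : Good k ↔ ∀ s, wt k s ≠ 0 :=
  forall_congr' fun s => (wt_ne_zero_iff k s).symm

/-- the data of `X` -/
noncomputable def DX : Dat K where
  p := fun k => k.1
  hp := continuous_fst
  ψ := wt
  hψ := continuous_wt

end Pool.Agent.helper27.AB
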