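import Mathlib

/-!
# A relation with full projection, with a.e. defined Borel sections and without Borel section
-/

set_option autoImplicit false

open MeasureTheory Set

namespace Pool.Agent.helper27.AB

/-- nodes: finite sequences of moves, the most recent one first -/
abbrev Nd : Type := List ℕ

/-- the parameter space -/
abbrev P : Type := Nd → Bool

/-- the value of a leaf -/
def leafVal (y : P) : Nd → Bool
  | [] => true
  | 0 :: _ => true
  | (k + 1) :: _ => y (Denumerable.ofNat (List ℕ) k)

/-- the type of a node -/
def ty (i : Bool) : Nd → Bool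
  | [] => i
  | _ :: s => !(ty i s)

/-- the value of the game with tree `x` (`x s = true`: the node `s` is a leaf) at the point `y`:
a node is true iff all its children are false; well-founded evaluation -/
inductive Val (x y : P) : Bool → Nd → Prop
  | leaf (s : Nd) (h : x s = true) : Val x y (leafVal y s) s
  | nodeT (s : Nd) (h : x s = false) (hn : ∀ n, Val x y false (n :: s)) : Val x y true s
  | nodeF (s : Nd) (h : x s = false) (n : ℕ) (hn : Val x y true (n :: s)) : Val x y false s

lemma Val.consistent {x y : P} {b : Bool} {s : Nd} (h : Val x y b s) : ¬ Val x y (!b) s := by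
  induction h with
  | leaf s h =>
    intro h'
    generalize hb : (!leafVal y s) = b' at h'
    cases h' with
    | leaf => simp at hb
    | nodeT _ h2 => rw [h] at h2; exact absurd h2 (by simp)
    | nodeF _ h2 => rw [h] at h2; exact absurd h2 (by simp)
  | nodeT s h hn ih =>
    intro h'
    generalize hb : (!true) = b' at h'
    cases h' with
    | leaf _ h2 => rw [h] at h2; exact absurd h2 (by simp)
    | nodeT _ h2 => simp at hb
    | nodeF _ h2 n h3 => exact ih n h3
  | nodeF s h n hn ih =>
    intro h'
    generalize hb : (!false) = b' at h'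
    cases h' with
    | leaf _ h2 => rw [h] at h2; exact absurd h2 (by simp)
    | nodeT _ h2 h3 => exact ih (h3 n)
    | nodeF _ h2 => simp at hb

/-! ### codes of Borel sets -/

/-- well-founded trees -/
inductive BCode : Type
  | leaf : BCode
  | node (f : ℕ → BCode) : BCode

/-- evaluation of a tree -/
def BCode.ev (y : P) : BCode → Nd → Prop
  | .leaf, s => leafVal y s = true
  | .node f, s => ∀ n, ¬ BCode.ev y (f n) (n :: s)

/-- the label at a position -/
def BCode.lookup : BCode → List ℕ → Bool
  | .leaf, _ => true
  | .node _, [] => false
  | .node f, (n :: t) => BCode.lookup (f n) t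

lemma val_of_code {x y : P} (c : BCode) : ∀ (s : Nd),
    (∀ t, x (t ++ s) = c.lookup t.reverse) →
    (c.ev y s → Val x y true s) ∧ (¬ c.ev y s → Val x y false s) := by
  induction c with
  | leaf =>
    intro s h
    have h0 : x s = true := by simpa [BCode.lookup] using h []
    have h1 := Val.leaf (x := x) (y := y) s h0
    constructor
    · intro h2
      have h3 : leafVal y s = true := h2
      rwa [h3] at h1
    · intro h2
      have h3 : leafVal y s = false := by simpa [BCode.ev] using h2
      rwa [h3] at h1
  | node f ih =>
    intro s h
    have h0 : x s = false := by simpa [BCode.lookup] using h []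
    have hch : ∀ n, ∀ t, x (t ++ (n :: s)) = (f n).lookup t.reverse := by
      intro n t
      have := h (t ++ [n])
      simpa [BCode.lookup] using this
    constructor
    · intro h2
      exact Val.nodeT s h0 fun n => (ih n (n :: s) (hch n)).2 (h2 n)
    · intro h2
      simp only [BCode.ev] at h2
      push Not at h2
      obtain ⟨n, hn⟩ := h2
      exact Val.nodeF s h0 n ((ih n (n :: s) (hch n)).1 hn)

/-- the family of coded sets -/
def Coded (B : Set P) : Prop := ∃ f : ℕ → BCode, ∀ y s, y ∈ B ↔ (BCode.node f).ev y s

lemma Coded.nor {B : ℕ → Set P} (h : ∀ n, Coded (B n)) : Coded (⋂ n, (B n)ᶜ) := by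
  choose f hf using h
  refine ⟨fun n => BCode.node (f n), fun y s => ?_⟩
  simp only [mem_iInter, mem_compl_iff]
  constructor
  · intro h1 n h2
    exact h1 n ((hf n y (n :: s)).mpr h2)
  · intro h1 n h2
    exact h1 n ((hf n y (n :: s)).mp h2)

lemma Coded.compl {B : Set P} (h : Coded B) : Coded Bᶜ := by
  have := Coded.nor (B := fun _ => B) fun _ => h
  rwa [iInter_const] at this

lemma Coded.iUnion {B : ℕ → Set P} (h : ∀ n, Coded (B n)) : Coded (⋃ n, B n) := by
  have := (Coded.nor h).compl
  simpa [compl_iInter] using this

lemma coded_empty : Coded ∅ := by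
  refine ⟨fun _ => BCode.leaf, fun y s => ?_⟩
  simp only [mem_empty_iff_false, false_iff, BCode.ev]
  push Not
  exact ⟨0, rfl⟩

lemma coded_eval (t : Nd) : Coded {y | y t = false} := by
  refine ⟨fun n => if n = Encodable.encode t + 1 then BCode.leaf else BCode.node fun _ => BCode.leaf,
    fun y s => ?_⟩
  have he : leafVal y ((Encodable.encode t + 1) :: s) = y t := by
    simp [leafVal]
  constructor
  · intro h n
    have hy : y t = false := h
    dsimp only
    split_ifs with hn
    · subst hn
      simp only [BCode.ev, he, hy]
      simp
    · simp only [BCode.ev]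
      push Not
      exact ⟨0, rfl⟩
  · intro h
    have h1 := h (Encodable.encode t + 1)
    dsimp only at h1
    rw [if_pos rfl] at h1
    simp only [BCode.ev, he] at h1
    simpa using h1

/-- every Borel set is coded -/
lemma coded_of_measurableSet {B : Set P} (hB : MeasurableSet B) : Coded B := by
  let m : MeasurableSpace P :=
    { MeasurableSet' := Coded
      measurableSet_empty := coded_empty
      measurableSet_compl := fun _ h => h.compl
      measurableSet_iUnion := fun _ h => Coded.iUnion h }
  have hm : (MeasurableSpace.pi : MeasurableSpace P) ≤ m := by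
    refine iSup_le fun t => ?_
    rintro _ ⟨A, -, rfl⟩
    have hf : MeasurableSet[m] ((fun y : P => y t) ⁻¹' {false}) := coded_eval t
    have ht : MeasurableSet[m] ((fun y : P => y t) ⁻¹' {true}) := by
      have : ((fun y : P => y t) ⁻¹' {true}) = ((fun y : P => y t) ⁻¹' {false})ᶜ := by
        ext y; simp
      rw [this]
      exact MeasurableSet.compl hf
    exact (@measurable_to_bool P m (fun y => y t) ht) (MeasurableSet.of_discrete)
  exact hm B hB

/-- Every Borel set is the value set of a tree. -/
lemma exists_tree {B : Set P} (hB : MeasurableSet B) :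
    ∃ x : P, ∀ y, (y ∈ B → Val x y true []) ∧ (y ∉ B → Val x y false []) := by
  obtain ⟨f, hf⟩ := coded_of_measurableSet hB
  refine ⟨fun t => (BCode.node f).lookup t.reverse, fun y => ?_⟩
  have h := val_of_code (x := fun t => (BCode.node f).lookup t.reverse) (y := y) (BCode.node f) []
    (fun t => by simp)
  exact ⟨fun h1 => h.1 ((hf y []).mp h1), fun h1 => h.2 fun h2 => h1 ((hf y []).mpr h2)⟩

/-! ### certificates -/

/-- the space of certificates -/
abbrev K : Type := P × Bool × P

/-- condition coming from the parent of the node -/
def par (k : K) : Nd → Bool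
  | [] => k.2.2 []
  | (m :: s) => !(ty k.2.1 s && (k.2.2 s && !(k.1 s))) || k.2.2 (m :: s)

/-- the full condition at the node `s`, with witness `n` -/
def cnd (k : K) (s : Nd) (n : ℕ) : Bool :=
  par k s && (!(k.2.2 s) ||
    ((k.1 s && (leafVal k.1 s == ty k.2.1 s)) || (!(k.1 s) && (ty k.2.1 s || k.2.2 (n :: s)))))

/-- the relation: `(x, i, R)` is a certificate for the game `x` at the point `x` -/
def Good (k : K) : Prop := ∀ s, ∃ n, cnd k s n = true

lemma Good.root {k : K} (h : Good k) : k.2.2 [] = true := by
  obtain ⟨n, hn⟩ := h []
  simp only [cnd, par, Bool.and_eq_true] at hn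
  exact hn.1

lemma Good.child {k : K} (h : Good k) {s : Nd} (n : ℕ) (h1 : ty k.2.1 s = true)
    (h2 : k.2.2 s = true) (h3 : k.1 s = false) : k.2.2 (n :: s) = true := by
  obtain ⟨m, hm⟩ := h (n :: s)
  simp only [cnd, par, Bool.and_eq_true, h1, h2, h3] at hm
  simpa using hm.1

lemma Good.leaf {k : K} (h : Good k) {s : Nd} (h2 : k.2.2 s = true) (h3 : k.1 s = true) :
    leafVal k.1 s = ty k.2.1 s := by
  obtain ⟨m, hm⟩ := h s
  simp only [cnd, Bool.and_eq_true, h2, h3] at hm
  simpa using hm.2

lemma Good.exists_child {k : K} (h : Good k) {s : Nd} (h1 : ty k.2.1 s = false)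
    (h2 : k.2.2 s = true) (h3 : k.1 s = false) : ∃ n, k.2.2 (n :: s) = true := by
  obtain ⟨m, hm⟩ := h s
  simp only [cnd, Bool.and_eq_true, h1, h2, h3] at hm
  exact ⟨m, by simpa using hm.2⟩

/-- soundness of certificates -/
lemma Good.sound {k : K} (h : Good k) {b : Bool} {s : Nd} (hv : Val k.1 k.1 b s)
    (hb : b = !(ty k.2.1 s)) : k.2.2 s = false := by
  by_contra hR
  rw [Bool.not_eq_false] at hR
  induction hv with
  | leaf s hs =>
    have := h.leaf hR hs
    rw [this] at hb
    simp at hb
  | nodeT s hs hn ih =>
    have hty : ty k.2.1 s = false := by simpa using hb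
    obtain ⟨n, hn'⟩ := h.exists_child hty hR hs
    exact ih n (by simp [ty, hty]) hn'
  | nodeF s hs n hn ih =>
    have hty : ty k.2.1 s = true := by simpa using hb
    exact ih (by simp [ty, hty]) (h.child n hty hR hs)

/-- There is no Borel section. -/
theorem no_section (g : P → K) (h1 : ∀ x, (g x).1 = x) (h2 : ∀ x, Good (g x))
    (h3 : MeasurableSet {x | (g x).2.1 = true}) : False := by
  obtain ⟨x, hx⟩ := exists_tree h3.compl
  by_cases hc : (g x).2.1 = true
  · have h4 : x ∉ ({x | (g x).2.1 = true}ᶜ : Set P) := by simpa using hc
    have h5 := (hx x).2 h4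
    have h6 : Val (g x).1 (g x).1 false [] := by rw [h1]; exact h5
    have h7 := (h2 x).sound h6 (by simp [ty, hc])
    rw [(h2 x).root] at h7
    exact absurd h7 (by simp)
  · have h4 : x ∈ ({x | (g x).2.1 = true}ᶜ : Set P) := hc
    have h5 := (hx x).1 h4
    have h6 : Val (g x).1 (g x).1 true [] := by rw [h1]; exact h5
    have hc' : (g x).2.1 = false := by simpa using hc
    have h7 := (h2 x).sound h6 (by simp [ty, hc'])
    rw [(h2 x).root] at h7
    exact absurd h7 (by simp)

/-! ### sections defined almost everywhere -/

/-- the set of points where the node has the given value -/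
def V (b : Bool) (s : Nd) : Set P := {x | Val x x b s}

/-- measurable kernel of `V` -/
noncomputable def M (ν : Measure P) (b : Bool) (s : Nd) : Set P := (toMeasurable ν (V b s)ᶜ)ᶜ

variable (ν : Measure P)

lemma measurableSet_M (b : Bool) (s : Nd) : MeasurableSet (M ν b s) :=
  (measurableSet_toMeasurable _ _).compl

lemma M_subset (b : Bool) (s : Nd) : M ν b s ⊆ V b s := by
  intro x hx
  by_contra hcon
  exact hx (subset_toMeasurable ν _ hcon)

lemma measure_diff_M [IsFiniteMeasure ν] {b : Bool} {s : Nd} {A : Set P} (hA : MeasurableSet A)
    (hAV : A ⊆ V b s) : ν (A \ M ν b s) = 0 := by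
  have h1 : A \ M ν b s = toMeasurable ν (V b s)ᶜ ∩ A := by
    unfold M
    rw [sdiff_compl, inter_comm]
  rw [h1, Measure.measure_toMeasurable_inter hA (measure_ne_top _ _)]
  have h2 : (V b s)ᶜ ∩ A = ∅ := by
    ext x
    simp only [mem_inter_iff, mem_compl_iff, mem_empty_iff_false, iff_false, not_and]
    intro h3 h4
    exact h3 (hAV h4)
  rw [h2, measure_empty]

/-- the one step operator at an inner node -/
noncomputable def stp : Bool → Nd → Set P
  | true, s => ⋂ n, M ν false (n :: s)
  | false, s => ⋃ n, M ν true (n :: s)

/-- the one step operator -/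
noncomputable def Gam (b : Bool) (s : Nd) : Set P :=
  {x | x s = true ∧ leafVal x s = b} ∪ ({x | x s = false} ∩ stp ν b s)

lemma Gam_subset (b : Bool) (s : Nd) : Gam ν b s ⊆ V b s := by
  rintro x (⟨h1, h2⟩ | ⟨h1, h2⟩)
  · have := Val.leaf (x := x) (y := x) s h1
    rw [h2] at this
    exact this
  · cases b with
    | true =>
      exact Val.nodeT s h1 fun n => M_subset ν _ _ (mem_iInter.mp h2 n)
    | false =>
      obtain ⟨n, hn⟩ := mem_iUnion.mp h2
      exact Val.nodeF s h1 n (M_subset ν _ _ hn)

lemma measurable_leafVal (s : Nd) : Measurable fun x : P => leafVal x s := by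
  match s with
  | [] => exact measurable_const
  | 0 :: _ => exact measurable_const
  | (k + 1) :: _ => exact measurable_pi_apply _

lemma measurableSet_Gam (b : Bool) (s : Nd) : MeasurableSet (Gam ν b s) := by
  have h1 : MeasurableSet {x : P | x s = true ∧ leafVal x s = b} :=
    (measurableSet_eq_fun (measurable_pi_apply s) measurable_const).inter
      (measurableSet_eq_fun (measurable_leafVal s) measurable_const)
  refine h1.union ?_
  have h2 : MeasurableSet {x : P | x s = false} :=
    measurableSet_eq_fun (measurable_pi_apply s) measurable_const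
  refine h2.inter ?_
  cases b with
  | true => exact MeasurableSet.iInter fun n => measurableSet_M ν _ _
  | false => exact MeasurableSet.iUnion fun n => measurableSet_M ν _ _

/-- the exceptional null set -/
noncomputable def Nul : Set P := ⋃ b, ⋃ s, (Gam ν b s \ M ν b s)

lemma measurableSet_Nul : MeasurableSet (Nul ν) :=
  MeasurableSet.iUnion fun b => MeasurableSet.iUnion fun s =>
    (measurableSet_Gam ν b s).diff (measurableSet_M ν b s)

lemma measure_Nul [IsFiniteMeasure ν] : ν (Nul ν) = 0 := by
  unfold Nul
  rw [measure_iUnion_null_iff]
  intro b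
  rw [measure_iUnion_null_iff]
  intro s
  exact measure_diff_M ν (measurableSet_Gam ν b s) (Gam_subset ν b s)

open Classical in
/-- the index of the section -/
noncomputable def secI (x : P) : Bool := if x ∈ M ν false [] then false else true

open Classical in
/-- the section -/
noncomputable def sec (x : P) : K :=
  (x, secI ν x, fun s => if x ∈ M ν (!(ty (secI ν x) s)) s then false else true)

lemma sec_fst (x : P) : (sec ν x).1 = x := rfl

lemma ty_cases (s : Nd) : (∀ j, ty j s = j) ∨ (∀ j, ty j s = !j) := by
  induction s with
  | nil => exact Or.inl fun j => rfl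
  | cons n s ih =>
    rcases ih with h | h
    · exact Or.inr fun j => by simp [ty, h]
    · exact Or.inl fun j => by simp [ty, h]

lemma measurable_sec : Measurable (sec ν) := by
  have hI : Measurable (secI ν) :=
    Measurable.ite (measurableSet_M ν _ _) measurable_const measurable_const
  refine measurable_id.prodMk (hI.prodMk (measurable_pi_lambda _ fun s => ?_))
  have h1 : MeasurableSet {x : P | x ∈ M ν (!(ty (secI ν x) s)) s} := by
    have h2 : {x : P | x ∈ M ν (!(ty (secI ν x) s)) s} =
        ({x | secI ν x = true} ∩ M ν (!(ty true s)) s) ∪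
          ({x | secI ν x = false} ∩ M ν (!(ty false s)) s) := by
      ext x
      simp only [mem_ofPred_eq, mem_union, mem_inter_iff]
      cases h : secI ν x <;> simp
    rw [h2]
    exact ((measurableSet_eq_fun hI measurable_const).inter (measurableSet_M ν _ _)).union
      ((measurableSet_eq_fun hI measurable_const).inter (measurableSet_M ν _ _))
  exact Measurable.ite h1 measurable_const measurable_const

lemma not_mem_Gam {x : P} (hx : x ∉ Nul ν) {b : Bool} {s : Nd} (h : x ∉ M ν b s) :
    x ∉ Gam ν b s := by
  intro h1
  apply hx
  simp only [Nul, mem_iUnion]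
  exact ⟨b, s, h1, h⟩

/-- the section takes values in the relation, off a null set -/
lemma good_sec {x : P} (hx : x ∉ Nul ν) : Good (sec ν x) := by
  classical
  set i := secI ν x with hi
  have hR : ∀ s, (sec ν x).2.2 s = true ↔ x ∉ M ν (!(ty i s)) s := by
    intro s
    change (if x ∈ M ν (!(ty i s)) s then false else true) = true ↔ _
    split_ifs with h <;> simp [h]
  have h1 : (sec ν x).1 = x := rfl
  have h2 : (sec ν x).2.1 = i := rfl
  intro s
  have hpar : par (sec ν x) s = true := by
    cases s with
    | nil =>
      change (sec ν x).2.2 [] = true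
      rw [hR]
      change x ∉ M ν (!i) []
      by_cases hm : x ∈ M ν false []
      · have : i = false := by rw [hi]; simp [secI, hm]
        rw [this]
        intro h3
        have h4 := M_subset ν _ _ hm
        have h5 := M_subset ν _ _ h3
        exact Val.consistent h4 h5
      · have : i = true := by rw [hi]; simp [secI, hm]
        rw [this]
        exact hm
    | cons m s =>
      simp only [par, h1, h2]
      by_cases hT : ty i s = true
      · by_cases hRs : (sec ν x).2.2 s = true
        · by_cases hxs : x s = true
          · simp [hxs]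
          · have hxs' : x s = false := by simpa using hxs
            have h3 := (hR s).mp hRs
            rw [hT] at h3
            have h4 := not_mem_Gam ν hx h3
            have h5 : (sec ν x).2.2 (m :: s) = true := by
              rw [hR]
              have : (!(ty i (m :: s))) = true := by simp [ty, hT]
              rw [this]
              intro h6
              apply h4
              right
              exact ⟨hxs', mem_iUnion.mpr ⟨m, h6⟩⟩
            simp [h5]
        · simp [hRs]
      · simp [hT]
  by_cases hRs : (sec ν x).2.2 s = true
  · have h3 := (hR s).mp hRs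
    have h4 := not_mem_Gam ν hx h3
    by_cases hxs : x s = true
    · refine ⟨0, ?_⟩
      have h5 : leafVal x s = ty i s := by
        by_contra hne
        apply h4
        left
        refine ⟨hxs, ?_⟩
        cases h6 : leafVal x s <;> cases h7 : ty i s <;> simp_all
      simp only [cnd, hpar, h1, h2, hxs, h5]
      simp
    · have hxs' : x s = false := by simpa using hxs
      by_cases hT : ty i s = true
      · refine ⟨0, ?_⟩
        simp only [cnd, hpar, h1, h2, hxs', hT]
        simp
      · have hT' : ty i s = false := by simpa using hT
        have h6 : ∃ n, x ∉ M ν false (n :: s) := by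
          by_contra hcon
          push Not at hcon
          apply h4
          right
          refine ⟨hxs', ?_⟩
          rw [hT']
          exact mem_iInter.mpr hcon
        obtain ⟨n, hn⟩ := h6
        refine ⟨n, ?_⟩
        have h7 : (sec ν x).2.2 (n :: s) = true := by
          rw [hR]
          have : (!(ty i (n :: s))) = false := by simp [ty, hT']
          rw [this]
          exact hn
        simp only [cnd, hpar, h1, h2, hxs', hT', h7]
        simp
  · refine ⟨0, ?_⟩
    simp only [cnd, hpar, hRs]
    simp

end Pool.Agent.helper27.AB
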