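import Pool.Agent.helper27.AB.Build

/-!
# Measure-wise embeddings do not give an almost Borel embedding
-/

set_option autoImplicit false

open MeasureTheory Set Filter Topology

namespace Pool.Agent.helper27.AB

instance : lam.IsAddLeftInvariant := by unfold lam; infer_instance

lemma ae_add {p : Om → Prop} (e : Om) (h : ∀ᵐ w ∂lam, p w) : ∀ᵐ w ∂lam, p (e + w) :=
  (mp_add e).quasiMeasurePreserving.ae h

lemma nsmul_single (s : Nd) (b : Bool) :
    (qp s b) • (Pi.single (s, b) 1 : Om) = 0 := by
  funext j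
  rw [Pi.smul_apply, Pi.zero_apply]
  by_cases hj : j = (s, b)
  · subst hj
    rw [Pi.single_eq_same, nsmul_eq_mul, mul_one, ZMod.natCast_self]
  · rw [Pi.single_eq_of_ne hj, smul_zero]

/-- The analysis of a fibre. -/
theorem fibre (p : P) (g : Om → DX.Sp) (hb : Measurable fun w => (DX.base (g w) : K))
    (hc : ∀ s, Measurable fun w => DX.co (g w) s)
    (hE : ∀ᵐ w ∂lam, g (1 + w) = DX.rot 1 (g w))
    (hI : ∀ e, ∀ᵐ w ∂lam, g (e + w) = g w → DY.pt p (e + w) = DY.pt p w) :
    ∃ k : K, (∀ᵐ w ∂lam, DX.base (g w) = k) ∧ k.1 = p ∧ Good k := by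
  obtain ⟨k, hk⟩ := ergodic_one.ae_eq_const_of_ae_eq_comp_ae
    (g := fun w => (DX.base (g w) : K)) hb.aestronglyMeasurable (by
      filter_upwards [hE] with w hw
      change DX.base (g (1 + w)) = DX.base (g w)
      rw [hw, Dat.base_rot])
  have hk' : ∀ᵐ w ∂lam, DX.base (g w) = k := hk
  have main : ∀ s, k.1 s = p s ∧ wt k s ≠ 0 := by
    intro s
    by_contra hcon
    set e : Om := Pi.single (s, p s) 1 with he
    have claim : ∀ t, ∀ᵐ w ∂lam, DX.co (g (e + w)) t = DX.co (g w) t := by
      intro t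
      set c : Om → ℂ := fun w => DX.co (g w) t with hcdef
      have hcm : Measurable c := hc t
      have hc1 : ∀ᵐ w ∂lam, c (1 + w) = ze t (k.1 t) * c w := by
        filter_upwards [hE, hk'] with w h1 h2
        rw [hcdef]
        dsimp only
        rw [h1, Dat.co_rot, h2, zpow_one]
        rfl
      have hc2 : ∀ᵐ w ∂lam, ∃ w', c w = (wt k t : ℂ) * cc t (k.1 t) w' := by
        filter_upwards [hk'] with w h2
        obtain ⟨w', hw'⟩ := DX.exists_pt (g w)
        refine ⟨w', ?_⟩
        rw [hcdef]
        dsimp only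
        rw [hw', Dat.co_pt, h2]
        rfl
      by_cases hw0 : wt k t = 0
      · have h0 : ∀ᵐ w ∂lam, c w = 0 := by
          filter_upwards [hc2] with w h
          obtain ⟨w', h⟩ := h
          rw [h, hw0, Complex.ofReal_zero, zero_mul]
        filter_upwards [h0, ae_add e h0] with w h1 h2
        exact h2.trans h1.symm
      · have hw0' : (wt k t : ℂ) ≠ 0 := by exact_mod_cast hw0
        have hne : ∀ᵐ w ∂lam, c w ≠ 0 := by
          filter_upwards [hc2] with w h
          obtain ⟨w', h⟩ := h
          rw [h]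
          exact mul_ne_zero hw0' (cc_ne_zero _ _ _)
        have hpow : ∀ᵐ w ∂lam, c w ^ (qp t (k.1 t)) = (wt k t : ℂ) ^ (qp t (k.1 t)) := by
          filter_upwards [hc2] with w h
          obtain ⟨w', h⟩ := h
          rw [h, mul_pow, cc_pow, mul_one]
        obtain ⟨r, hr⟩ := ergodic_one.ae_eq_const_of_ae_eq_comp_ae
          (g := fun w => c (e + w) / c w)
          ((hcm.comp (measurable_const_add e)).div hcm).aestronglyMeasurable (by
            filter_upwards [hc1, ae_add e hc1] with w h1 h2
            change c (e + (1 + w)) / c (1 + w) = c (e + w) / c w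
            have h3 : e + (1 + w) = 1 + (e + w) := by abel
            have h3' : 1 + (e + w) = 1 + (e + w) := rfl
            rw [h3, h2, h1]
            exact mul_div_mul_left _ _ (ze_ne_zero _ _))
        have hr' : ∀ᵐ w ∂lam, c (e + w) = r * c w := by
          filter_upwards [hr, hne] with w h1 h2
          have h3 : c (e + w) / c w = r := h1
          rw [← h3, div_mul_cancel₀ _ h2]
        have hr1 : r ^ (qp t (k.1 t)) = 1 := by
          obtain ⟨w, h1, h2, h3, h4⟩ := (hr'.and (hpow.and ((ae_add e hpow).and hne))).exists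
          rw [h1, mul_pow, h2] at h3
          have h5 : (wt k t : ℂ) ^ (qp t (k.1 t)) ≠ 0 := pow_ne_zero _ hw0'
          exact mul_right_cancel₀ h5 (h3.trans (one_mul _).symm)
        have hiter : ∀ n : ℕ, ∀ᵐ w ∂lam, c (n • e + w) = r ^ n * c w := by
          intro n
          induction n with
          | zero => exact Eventually.of_forall fun w => by simp
          | succ n ih =>
            filter_upwards [ae_add e ih, hr'] with w h1 h2
            have h3 : (n + 1) • e + w = n • e + (e + w) := by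
              rw [add_smul, one_smul, add_assoc]
            rw [h3, h1, h2, pow_succ, mul_assoc]
        have hr2 : r ^ (qp s (p s)) = 1 := by
          obtain ⟨w, h1, h2⟩ := ((hiter (qp s (p s))).and hne).exists
          rw [he, nsmul_single, zero_add] at h1
          exact (mul_right_cancel₀ h2 (h1.symm.trans (one_mul _).symm))
        have hne' : (t, k.1 t) ≠ (s, p s) := by
          intro h
          apply hcon
          have h1 : t = s := congrArg Prod.fst h
          subst h1
          exact ⟨congrArg Prod.snd h, hw0⟩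
        have hr3 : r = 1 := by
          have h1 := pow_gcd_eq_one.mpr ⟨hr1, hr2⟩
          rw [qp_coprime (j := (t, k.1 t)) (j' := (s, p s)) hne', pow_one] at h1
          exact h1
        filter_upwards [hr'] with w h1
        have h2 : c (e + w) = c w := by rw [h1, hr3, one_mul]
        exact h2
    have claim' : ∀ᵐ w ∂lam, ∀ t, DX.co (g (e + w)) t = DX.co (g w) t := ae_all_iff.mpr claim
    obtain ⟨w, h1, h2, h3, h4⟩ := (claim'.and (hk'.and ((ae_add e hk').and (hI e)))).exists
    have h5 : g (e + w) = g w := DX.ext' (h3.trans h2.symm) h1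
    have h6 := h4 h5
    have h7 : DY.co (DY.pt p (e + w)) s = DY.co (DY.pt p w) s := by rw [h6]
    rw [Dat.co_pt, Dat.co_pt] at h7
    have h8 : ((DY.ψ p s : ℝ) : ℂ) = 1 := Complex.ofReal_one
    rw [h8, one_mul, one_mul] at h7
    have h9 := cc_inj h7
    have h10 : (e + w) (s, p s) = e (s, p s) + w (s, p s) := rfl
    have h11 : e (s, p s) = 0 := by
      have : e (s, p s) + w (s, p s) = w (s, p s) := h10.symm.trans h9
      exact add_eq_right.mp this
    rw [he, Pi.single_eq_same] at h11
    exact one_ne_zero h11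
  exact ⟨k, hk', funext fun s => (main s).1, (good_iff k).mpr fun s => (main s).2⟩

instance {L : Type} [TopologicalSpace L] (D : Dat L) : MeasurableSpace D.Sp := borel D.Sp
instance {L : Type} [TopologicalSpace L] (D : Dat L) : BorelSpace D.Sp := ⟨rfl⟩

/-- There is no almost Borel embedding. -/
theorem not_embeds (d : ℕ) (hd : 0 < d) : ¬ AlmostBorelEmbeds (DY.sys d hd) (DX.sys d hd) := by
  rintro ⟨Y₀, ⟨hY₀, hinv, ρ, hρ, hinj, heq⟩, hfull⟩
  have hY₀' : MeasurableSet (Y₀ : Set DY.Sp) := hY₀
  obtain ⟨ρ', hρ', hρ'ρ⟩ := (MeasurableEmbedding.subtype_coe hY₀).exists_measurable_extend hρ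
    (fun _ => ⟨DX.pt (default : K) 0⟩)
  have hρ'' : ∀ (y : DY.Sp) (h : y ∈ (Y₀ : Set DY.Sp)), ρ' y = ρ ⟨y, h⟩ := fun y h =>
    congrFun hρ'ρ ⟨y, h⟩
  let G : P × Om → DX.Sp := fun z => ρ' (DY.pt z.1 z.2)
  have hpt : Measurable fun z : P × Om => (DY.pt z.1 z.2 : DY.Sp) := DY.continuous_pt.measurable
  have hG : Measurable G := Measurable.comp (g := (ρ' : DY.Sp → DX.Sp)) hρ' hpt
  have hbm : Measurable fun x : DX.Sp => (DX.base x : K) := DX.continuous_base.measurable
  have hcm : ∀ s, Measurable fun x : DX.Sp => DX.co x s := fun s => (DX.continuous_co s).measurable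
  -- the fibre measures
  have hae : ∀ p : P, ∀ᵐ w ∂lam, (DY.pt p w : DY.Sp) ∈ (Y₀ : Set DY.Sp) := by
    intro p
    have hmp : Measurable fun w : Om => (DY.pt p w : DY.Sp) := by
      exact hpt.comp measurable_prodMk_left
    have h1 : IsInvProb (DY.sys d hd) (lam.map fun w : Om => (DY.pt p w : DY.Sp)) := by
      constructor
      · have : (lam.map fun w : Om => (DY.pt p w : DY.Sp)) Set.univ = 1 := by
          rw [Measure.map_apply hmp MeasurableSet.univ, preimage_univ, measure_univ]
        exact this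
      · intro i
        have hr : Measurable (DY.rot (i ⟨0, hd⟩)) := (DY.continuous_rot _).measurable
        have : (lam.map fun w : Om => (DY.pt p w : DY.Sp)).map (DY.rot (i ⟨0, hd⟩)) =
            lam.map fun w : Om => (DY.pt p w : DY.Sp) := by
          rw [Measure.map_map hr hmp]
          have h2 : (DY.rot (i ⟨0, hd⟩)) ∘ (fun w : Om => (DY.pt p w : DY.Sp)) =
              (fun w : Om => (DY.pt p w : DY.Sp)) ∘ fun w => (i ⟨0, hd⟩) • (1 : Om) + w := by
            funext w
            exact DY.rot_pt _ _ _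
          rw [h2, ← Measure.map_map hmp (measurable_const_add _), (mp_add _).map_eq]
        exact this
    have h2 := hfull _ h1
    have h3 := Measure.map_apply (μ := lam) hmp hY₀'.compl
    exact h3.symm.trans h2
  have key : ∀ p : P, ∃ k : K, (∀ᵐ w ∂lam, DX.base (G (p, w)) = k) ∧ k.1 = p ∧ Good k := by
    intro p
    refine fibre p (fun w => G (p, w)) ((hbm.comp hG).comp measurable_prodMk_left)
      (fun s => ((hcm s).comp hG).comp measurable_prodMk_left) ?_ ?_
    · filter_upwards [hae p] with w hw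
      have h1 : DY.pt p (1 + w) = DY.rot 1 (DY.pt p w) := by rw [Dat.rot_pt, one_smul]
      have h2 : DY.rot 1 (DY.pt p w) ∈ (Y₀ : Set DY.Sp) := (hinv (fun _ => 1) (DY.pt p w)).mpr hw
      have h3 := heq (fun _ => 1) ⟨DY.pt p w, hw⟩ h2
      have h4 : ρ' (DY.pt p (1 + w)) = ρ ⟨DY.rot 1 (DY.pt p w), h2⟩ := by
        rw [h1]; exact hρ'' _ h2
      have h5 : ρ' (DY.pt p w) = ρ ⟨DY.pt p w, hw⟩ := hρ'' _ hw
      change ρ' (DY.pt p (1 + w)) = DX.rot 1 (ρ' (DY.pt p w))
      rw [h4, h5]
      exact h3
    · intro e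
      filter_upwards [hae p, ae_add e (hae p)] with w hw hw' h
      have h4 : ρ' (DY.pt p (e + w)) = ρ ⟨DY.pt p (e + w), hw'⟩ := hρ'' _ hw'
      have h5 : ρ' (DY.pt p w) = ρ ⟨DY.pt p w, hw⟩ := hρ'' _ hw
      have h6 : ρ ⟨DY.pt p (e + w), hw'⟩ = ρ ⟨DY.pt p w, hw⟩ := by
        rw [← h4, ← h5]; exact h
      exact congrArg Subtype.val (hinj h6)
  choose k hk1 hk2 hk3 using key
  refine no_section k hk2 hk3 ?_
  let A : Set (P × Om) := {z | (DX.base (G z) : K).2.1 = true}
  have hA : MeasurableSet A :=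
    measurableSet_eq_fun ((measurable_fst.comp measurable_snd).comp (hbm.comp hG)) measurable_const
  have h1 : {x | (k x).2.1 = true} = {x | lam (Prod.mk x ⁻¹' A) = 1} := by
    ext x
    simp only [mem_ofPred_eq]
    constructor
    · intro h
      rw [prob_compl_eq_zero_iff (hA.preimage measurable_prodMk_left) |>.symm]
      have : ∀ᵐ w ∂lam, w ∈ Prod.mk x ⁻¹' A := by
        filter_upwards [hk1 x] with w hw
        change (DX.base (G (x, w)) : K).2.1 = true
        rw [hw]; exact h
      exact this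
    · intro h
      by_contra hcon
      have h2 : lam (Prod.mk x ⁻¹' A) = 0 := by
        have : ∀ᵐ w ∂lam, w ∉ Prod.mk x ⁻¹' A := by
          filter_upwards [hk1 x] with w hw h3
          have h4 : (DX.base (G (x, w)) : K).2.1 = true := h3
          rw [hw] at h4
          exact hcon h4
        rw [measure_eq_zero_iff_ae_notMem]
        exact this
      rw [h2] at h
      exact zero_ne_one h
  rw [h1]
  exact measurableSet_eq_fun (measurable_measure_prodMk_left hA) measurable_const

/-- Every invariant measure on `Y` is realized on `X`. -/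
theorem realized (d : ℕ) (hd : 0 < d) (μ : Measure (DY.sys d hd).X)
    (hμ : IsInvProb (DY.sys d hd) μ) : Realized (DY.sys d hd) (DX.sys d hd) μ := by
  let μ' : Measure DY.Sp := μ
  have hbm : Measurable fun y : DY.Sp => (DY.base y : P) := DY.continuous_base.measurable
  have hcm : ∀ s, Measurable fun y : DY.Sp => DY.co y s := fun s => (DY.continuous_co s).measurable
  have hfin : IsFiniteMeasure μ' := ⟨by
    have : μ' Set.univ = 1 := hμ.1
    rw [this]; exact ENNReal.one_lt_top⟩
  let ν : Measure P := μ'.map fun y : DY.Sp => (DY.base y : P)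
  have hνfin : IsFiniteMeasure ν := by infer_instance
  let Y₀ : Set DY.Sp := {y | (DY.base y : P) ∉ Nul ν}
  have hY₀ : MeasurableSet Y₀ := (hbm (measurableSet_Nul ν)).compl
  have hmem : ∀ y : DY.Sp, (((sec ν (DY.base y) : K), fun s => (wt (sec ν (DY.base y)) s : ℂ) * DY.co y s) :
      K × (Nd → ℂ)) ∈ Set.range DX.F := by
    intro y
    obtain ⟨w, hw⟩ := DY.exists_pt y
    refine ⟨(sec ν (DY.base y), w), ?_⟩
    refine Prod.ext rfl (funext fun s => ?_)
    change (wt (sec ν (DY.base y)) s : ℂ) * cc s ((sec ν (DY.base y)).1 s) w = _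
    have h1 : DY.co y s = cc s (DY.base y s) w := by
      rw [hw, Dat.co_pt, Dat.base_pt]
      have h8 : ((DY.ψ (DY.base y) s : ℝ) : ℂ) = 1 := Complex.ofReal_one
      rw [h8, one_mul]
      rfl
    dsimp only
    rw [h1, sec_fst]
  let ρ : Y₀ → DX.Sp := fun y => ⟨_, hmem y.1⟩
  refine ⟨Y₀, ⟨hY₀, ?_, ρ, ?_, ?_, ?_⟩, ?_⟩
  · intro i y
    rfl
  · -- measurability
    have hval : Measurable fun y : Y₀ => (((sec ν (DY.base y.1) : K),
        fun s => (wt (sec ν (DY.base y.1)) s : ℂ) * DY.co y.1 s) : K × (Nd → ℂ)) := by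
      have hs : Measurable fun y : Y₀ => (sec ν (DY.base y.1) : K) :=
        ((measurable_sec ν).comp hbm).comp measurable_subtype_coe
      refine hs.prodMk (measurable_pi_lambda _ fun s => ?_)
      have h1 : Measurable fun k : K => (wt k s : ℂ) :=
        Complex.measurable_ofReal.comp (continuous_wt s).measurable
      exact (h1.comp hs).mul ((hcm s).comp measurable_subtype_coe)
    have hρ0 : Measurable (fun y : Y₀ => (⟨_, hmem y.1⟩ : Set.range DX.F)) := hval.subtype_mk
    have hbor : (Subtype.instMeasurableSpace : MeasurableSpace (Set.range DX.F)) =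
        borel (Set.range DX.F) := BorelSpace.measurable_eq
    rw [hbor] at hρ0
    exact hρ0
  · -- injectivity
    intro y y' h
    have h0 : (((sec ν (DY.base y.1) : K), fun s => (wt (sec ν (DY.base y.1)) s : ℂ) * DY.co y.1 s) :
      K × (Nd → ℂ)) = (((sec ν (DY.base y'.1) : K),
        fun s => (wt (sec ν (DY.base y'.1)) s : ℂ) * DY.co y'.1 s) : K × (Nd → ℂ)) :=
      congrArg Subtype.val h
    have h1 : sec ν (DY.base y.1) = sec ν (DY.base y'.1) := congrArg Prod.fst h0
    have h2 : DY.base y.1 = DY.base y'.1 := by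
      have := congrArg Prod.fst h1
      exact this
    refine Subtype.ext (DY.ext' h2 fun s => ?_)
    have h3 : (wt (sec ν (DY.base y.1)) s : ℂ) * DY.co y.1 s =
        (wt (sec ν (DY.base y'.1)) s : ℂ) * DY.co y'.1 s :=
      congrFun (congrArg Prod.snd h0) s
    rw [← h1] at h3
    have h4 : Good (sec ν (DY.base y.1)) := good_sec ν y.2
    have h5 : (wt (sec ν (DY.base y.1)) s : ℂ) ≠ 0 := by
      exact_mod_cast (good_iff _).mp h4 s
    exact mul_left_cancel₀ h5 h3
  · -- equivariance
    intro i y hy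
    refine DX.ext' rfl fun s => ?_
    change (wt (sec ν (DY.base y.1)) s : ℂ) * (ze s (DY.base y.1 s) ^ (i ⟨0, hd⟩) * DY.co y.1 s) =
      ze s ((sec ν (DY.base y.1)).1 s) ^ (i ⟨0, hd⟩) *
        ((wt (sec ν (DY.base y.1)) s : ℂ) * DY.co y.1 s)
    rw [sec_fst]
    ring
  · have h1 : (Y₀ᶜ : Set DY.Sp) = (fun y : DY.Sp => (DY.base y : P)) ⁻¹' (Nul ν) := by
      ext y
      simp [Y₀]
    have h2 : μ' (Y₀ᶜ) = 0 := by
      rw [h1, ← Measure.map_apply hbm (measurableSet_Nul ν)]
      exact measure_Nul ν
    exact h2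

end Pool.Agent.helper27.AB
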