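import Pool.Agent.helper27.AB.Comb

/-!
# The big odometer
-/

set_option autoImplicit false

open MeasureTheory Set Filter

namespace Pool.Agent.helper27.AB

/-- distinct primes -/
noncomputable def qp (s : Nd) (b : Bool) : ℕ := Nat.nth Nat.Prime (Encodable.encode (s, b))

lemma qp_prime (s : Nd) (b : Bool) : (qp s b).Prime := Nat.prime_nth_prime _

lemma qp_inj {s s' : Nd} {b b' : Bool} (h : qp s b = qp s' b') : s = s' ∧ b = b' := by
  have h1 := Nat.nth_injective Nat.infinite_setOfPred_prime h
  have h2 := Encodable.encode_injective h1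
  exact ⟨congrArg Prod.fst h2, congrArg Prod.snd h2⟩

attribute [irreducible] qp

instance factQp (s : Nd) (b : Bool) : Fact (qp s b).Prime := ⟨qp_prime s b⟩

instance neZeroQp (s : Nd) (b : Bool) : NeZero (qp s b) := ⟨(qp_prime s b).ne_zero⟩

lemma qp_coprime {j j' : Nd × Bool} (h : j ≠ j') : Nat.Coprime (qp j.1 j.2) (qp j'.1 j'.2) := by
  rw [Nat.coprime_primes (qp_prime _ _) (qp_prime _ _)]
  intro h1
  obtain ⟨h2, h3⟩ := qp_inj h1
  exact h (Prod.ext h2 h3)

/-- the big odometer -/
abbrev Om : Type := ∀ j : Nd × Bool, ZMod (qp j.1 j.2)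

instance : IsTopologicalAddGroup Om := inferInstance
instance : CompactSpace Om := inferInstance
instance : SecondCountableTopology Om := inferInstance
instance (j : Nd × Bool) : BorelSpace (ZMod (qp j.1 j.2)) := ⟨by
  rw [borel_eq_top_of_discrete]; rfl⟩
instance : BorelSpace Om := inferInstance

/-- Haar probability measure -/
noncomputable def lam : Measure Om := Measure.addHaarMeasure ⊤

instance : IsProbabilityMeasure lam := ⟨by
  have := Measure.addHaarMeasure_self (K₀ := (⊤ : TopologicalSpace.PositiveCompacts Om))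
  exact this⟩

instance : lam.IsAddLeftInvariant := by unfold lam; infer_instance

instance : lam.InnerRegular := by infer_instance

lemma dense_one : DenseRange (fun n : ℤ => n • (1 : Om)) := by
  rw [DenseRange, dense_iff_inter_open]
  rintro U hU ⟨w, hw⟩
  obtain ⟨I, u, hu, hsub⟩ := isOpen_pi_iff.mp hU w hw
  obtain ⟨k, hk⟩ := Nat.chineseRemainderOfFinset (fun j => (w j).val)
    (fun j : Nd × Bool => qp j.1 j.2) I (fun j _ => (qp_prime _ _).ne_zero)
    (fun i _ j _ hij => qp_coprime hij)
  refine ⟨(k : ℤ) • (1 : Om), hsub ?_, ⟨k, rfl⟩⟩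
  intro j hj
  have h1 : ((k : ℤ) • (1 : Om)) j = w j := by
    have h2 := (ZMod.natCast_eq_natCast_iff _ _ _).mpr (hk j hj)
    rw [ZMod.natCast_zmod_val] at h2
    rw [← h2]
    simp
  rw [h1]
  exact (hu j hj).2

lemma ergodic_one : Ergodic (fun w : Om => 1 + w) lam :=
  ergodic_add_left_of_denseRange_zsmul dense_one lam

lemma mp_add (e : Om) : MeasurePreserving (fun w : Om => e + w) lam lam :=
  measurePreserving_add_left lam e

/-- the characters -/
noncomputable def cc (s : Nd) (b : Bool) (w : Om) : ℂ := ZMod.stdAddChar (w (s, b))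

/-- the eigenvalues -/
noncomputable def ze (s : Nd) (b : Bool) : ℂ := ZMod.stdAddChar (1 : ZMod (qp s b))

lemma cc_add (s : Nd) (b : Bool) (w w' : Om) : cc s b (w + w') = cc s b w * cc s b w' := by
  unfold cc
  rw [Pi.add_apply, AddChar.map_add_eq_mul]

lemma cc_one (s : Nd) (b : Bool) : cc s b 1 = ze s b := rfl

lemma cc_zero (s : Nd) (b : Bool) : cc s b 0 = 1 := by
  unfold cc
  rw [Pi.zero_apply, AddChar.map_zero_eq_one]

lemma cc_pow (s : Nd) (b : Bool) (w : Om) : cc s b w ^ (qp s b) = 1 := by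
  unfold cc
  rw [← AddChar.map_nsmul_eq_pow, nsmul_eq_mul, ZMod.natCast_self, zero_mul,
    AddChar.map_zero_eq_one]

lemma cc_ne_zero (s : Nd) (b : Bool) (w : Om) : cc s b w ≠ 0 := by
  intro h
  have := cc_pow s b w
  rw [h, zero_pow (qp_prime s b).ne_zero] at this
  exact zero_ne_one this

lemma ze_ne_zero (s : Nd) (b : Bool) : ze s b ≠ 0 := by
  rw [← cc_one]; exact cc_ne_zero _ _ _

lemma cc_zsmul (s : Nd) (b : Bool) (n : ℤ) (w : Om) : cc s b (n • 1 + w) = ze s b ^ n * cc s b w := by
  rw [cc_add]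
  congr 1
  unfold cc ze
  have : (n • (1 : Om)) (s, b) = n • (1 : ZMod (qp s b)) := rfl
  rw [this, AddChar.map_zsmul_eq_zpow]

lemma cc_inj {s : Nd} {b : Bool} {w w' : Om} (h : cc s b w = cc s b w') : w (s, b) = w' (s, b) :=
  ZMod.injective_stdAddChar h

lemma continuous_cc₀ (s : Nd) (b : Bool) : Continuous (cc s b) := by
  have h1 : Continuous fun z : ZMod (qp s b) => (ZMod.stdAddChar z : ℂ) :=
    continuous_of_discreteTopology
  exact h1.comp (continuous_apply (s, b))

attribute [irreducible] cc ze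

lemma continuous_cc (s : Nd) : Continuous fun z : Bool × Om => cc s z.1 z.2 := by
  rw [continuous_prod_of_discrete_left]
  exact fun b => continuous_cc₀ s b

end Pool.Agent.helper27.AB
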